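import Pool.Agent.H4.SE.Targets

/-! # IR: the recursion (MP_45b854_al) -/

set_option autoImplicit false

open Finset Equiv
open scoped Classical

namespace Pool.Agent.H13.SE4

open Pool.Agent.H4.SE

theorem pf_IR (hEP : T_EP) (hIB : T_IB) (hIS : T_IS) (hIN : T_IN) (hIL : T_IL) (hIV : T_IV) :
    T_IR := by
  intro r d T hT
  obtain ⟨C, hC, h⟩ := hIN r d T hT
  refine ⟨C, hC, ?_⟩
  intro k β _ _ _
  have h1 := h k β
  obtain ⟨c, hc, hc'⟩ := hIS r k β
  have h2 : ent (fun ω : Oh r k β => (WQ T (sml ω), ZZ T ω.1 (pt ω))) =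
      ent (fun x : Om r k β × (Fin r → β) => (WQ T x.1, ZZ T x.1.1 x.2)) :=
    hEP (Om r k β × (Fin r → β)) (Oh r k β) _ (fun ω => (sml ω, pt ω)) c hc (by intro x; convert hc' x)
      (fun x => (WQ T x.1, ZZ T x.1.1 x.2))
  obtain ⟨c1, hc1, hc1'⟩ := hIB r k β
  have h3 : ent (fun ω : Oh r k β => (WQ T (big ω), pat T (big ω).1 none)) =
      ent (fun ω : Om r k (Option β) => (WQ T ω, pat T ω.1 none)) :=
    hEP (Om r k (Option β)) (Oh r k β) _ big c1 hc1 (by intro x; convert hc1' x) (fun ω => (WQ T ω, pat T ω.1 none))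
  have h4 := hIV r d T k (Option β) none
  have h5 := hIL r d T k β
  rw [h2, h3, h4] at h1
  have h6 : ((Fintype.card (Option β) : ℕ) : ℝ) = (Fintype.card β : ℝ) + 1 := by
    rw [Fintype.card_option]
    push_cast
    ring
  rw [h6] at h1
  linarith

end Pool.Agent.H13.SE4
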